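import Pool.Agent.H70.NC.Targets

/-!
# Collapse above, infinite on average below: module OFR

A decision tree over formulas becomes a decision tree over the rows.
-/

set_option autoImplicit false

namespace Pool.Agent.H12.NC

open Finset Filter Pool.Agent.H6.NB Pool.Agent.H70.OQ Pool.Agent.H70.NC

theorem ic_nonneg (p : Prop) : 0 ≤ ic p := by
  unfold ic
  split_ifs
  · exact zero_le_one
  · exact le_refl _

theorem ic_of (p : Prop) (h : p) : ic p = 1 := by
  unfold ic
  rw [if_pos h]

theorem ic_not (p : Prop) (h : ¬ p) : ic p = 0 := by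
  unfold ic
  rw [if_neg h]

theorem ofr (h1 : T_RDU) (h2 : Pool.Agent.H70.OQ.T_FMS) : T_OFR := by
  intro X Y _ _ _ _ _ k m S t T w G q hw htw hq0 hq hG hGY f hf
  obtain ⟨A, g, hA, hg, hfe⟩ := hf
  have hq1 : q ≤ 1 := by
    have hw' : (1 : ℝ) ≤ w := by exact_mod_cast hw
    nlinarith
  have hlw : ∀ l : X → Bool, 0 ≤ lw q l := by
    intro l
    unfold lw
    refine prod_nonneg fun a _ => ?_
    split_ifs
    · exact hq0.le
    · linarith
  have key : ∀ (H : Hid X Y k) (l : X → Bool), ic (¬ DR (T * w) k f H l) ≤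
      ∑ i, ic (¬ DR w k (g i) H l) := by
    intro H l
    by_cases hall : ∀ i, DR w k (g i) H l
    · choose Ti hTi1 hTi2 using hall
      obtain ⟨T', hT1, hT2⟩ := h2 (Fin m) X S T w 0 A.eval (fun i => (Ti i).eval)
        (fun i => ⟨Ti i, hTi1 i, fun _ => rfl⟩) ⟨A, hA, fun _ => rfl⟩
      have hd : DR (T * w) k f H l := by
        refine ⟨T', hT1, fun b hb => ?_⟩
        rw [hT2, hfe]
        have h3 : (fun i => (Ti i).eval b) = fun i => g i (sv b k H) := by
          funext i
          exact hTi2 i b hb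
        simp only
        rw [h3]
      rw [ic_not _ (fun h => h hd)]
      exact sum_nonneg fun i _ => ic_nonneg _
    · push Not at hall
      obtain ⟨i, hi⟩ := hall
      have h3 : ic (¬ DR (T * w) k f H l) ≤ 1 := by
        by_cases hd : DR (T * w) k f H l
        · rw [ic_not _ (fun h => h hd)]
          exact zero_le_one
        · rw [ic_of _ hd]
      have h4 : (1 : ℝ) = ic (¬ DR w k (g i) H l) := (ic_of _ hi).symm
      refine h3.trans (h4.le.trans ?_)
      exact single_le_sum (f := fun i => ic (¬ DR w k (g i) H l)) (fun i _ => ic_nonneg _)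
        (mem_univ i)
  calc ∑ H : Hid X Y k, ∑ l : X → Bool, lw q l * ic (¬ DR (T * w) k f H l)
      ≤ ∑ H : Hid X Y k, ∑ l : X → Bool, ∑ i, lw q l * ic (¬ DR w k (g i) H l) := by
        refine sum_le_sum fun H _ => sum_le_sum fun l _ => ?_
        rw [← mul_sum]
        exact mul_le_mul_of_nonneg_left (key H l) (hlw l)
    _ = ∑ i, ∑ H : Hid X Y k, ∑ l : X → Bool, lw q l * ic (¬ DR w k (g i) H l) := by
        rw [sum_congr rfl fun H _ => sum_comm]
        exact sum_comm
    _ ≤ ∑ _i : Fin m, errD X Y S w G q k * Fintype.card (Hid X Y k) :=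
        sum_le_sum fun i _ => h1 X Y k S t w G q hw htw hq0 hq hG hGY (g i) (hg i)
    _ = m * errD X Y S w G q k * Fintype.card (Hid X Y k) := by
        rw [sum_const, card_univ, Fintype.card_fin, nsmul_eq_mul]
        ring

end Pool.Agent.H12.NC
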